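import Mathlib.Algebra.BigOperators.Fin
import Mathlib.Algebra.Module.BigOperators
import Mathlib.Data.Nat.Multiplicity
import Mathlib.Tactic.SuppressCompilation
import Mathlib.Topology.Sheaves.Presheaf
import Mathlib.Algebra.Field.ZMod
import Mathlib.Data.Int.ConditionallyCompleteOrder
import Mathlib.Data.Int.Star
import Mathlib.Algebra.Order.Ring.Star
import Mathlib.Tactic.Bound
import Mathlib.Combinatorics.SimpleGraph.Basic
import Mathlib.RingTheory.PiTensorProduct
import Mathlib.Tactic.Algebra.Basic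

-- ======== part 0: formerly Pool.Agent.MP_f6f5a0_co.Rep
section MrgPart0

/-!
Signed families of blocks lying in pairwise different, unused classes of a key function.
-/

set_option autoImplicit false

namespace Pool.Agent.MP_f6f5a0_co

open Finset

variable {X K : Type} [Fintype X] [DecidableEq X] [DecidableEq K]

/-- The support of a weight function on subsets. -/
def supp (u : Finset X → ℤ) : Finset (Finset X) := univ.filter (fun S => u S ≠ 0)

/-- `u` is a signed family of admissible sets whose keys are pairwise different and avoid `F`. -/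
structure Fresh (ok : Finset X → Prop) (key : Finset X → K) (F : Finset K)
    (u : Finset X → ℤ) : Prop where
  ok : ∀ S, u S ≠ 0 → ok S
  notMem : ∀ S, u S ≠ 0 → key S ∉ F
  sign : ∀ S, u S ≠ 0 → u S = 1 ∨ u S = -1
  inj : ∀ S S', u S ≠ 0 → u S' ≠ 0 → key S = key S' → S = S'

/-- `y` is the `μ`-moment of a fresh signed family with at most `N` members, whatever small set
of keys is forbidden. -/
def Rep (ok : Finset X → Prop) (key : Finset X → K) (M : ℕ) {A : Type} [AddCommGroup A]
    (μ : Finset X → A) (y : A) (N : ℕ) : Prop :=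
  ∀ F : Finset K, F.card + N ≤ M →
    ∃ u : Finset X → ℤ, Fresh ok key F u ∧ (supp u).card ≤ N ∧ ∑ S, u S • μ S = y

omit [DecidableEq X] in
theorem mem_supp {u : Finset X → ℤ} {S : Finset X} : S ∈ supp u ↔ u S ≠ 0 := by
  simp [supp]

variable {ok : Finset X → Prop} {key : Finset X → K} {M : ℕ}

omit [Fintype X] [DecidableEq X] [DecidableEq K] in
theorem Fresh.zero (F : Finset K) : Fresh ok key F (fun _ => 0) :=
  ⟨fun _ h => absurd rfl h, fun _ h => absurd rfl h, fun _ h => absurd rfl h,
    fun _ _ h => absurd rfl h⟩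

theorem Fresh.add {F : Finset K} {u w : Finset X → ℤ} (hu : Fresh ok key F u)
    (hw : Fresh ok key (F ∪ (supp u).image key) w) :
    Fresh ok key F (fun S => u S + w S) ∧ (∀ S, u S = 0 ∨ w S = 0) := by
  have hd : ∀ S S', u S ≠ 0 → w S' ≠ 0 → key S ≠ key S' := by
    intro S S' h1 h2 h
    apply hw.notMem S' h2
    rw [← h]
    exact mem_union_right _ (mem_image_of_mem _ (mem_supp.2 h1))
  have h0 : ∀ S, u S = 0 ∨ w S = 0 := by
    intro S
    by_contra h
    push Not at h
    exact hd S S h.1 h.2 rfl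
  have h1 : ∀ S, u S + w S ≠ 0 → (u S ≠ 0 ∧ w S = 0) ∨ (u S = 0 ∧ w S ≠ 0) := by
    intro S h
    rcases h0 S with h' | h'
    · right; exact ⟨h', by rwa [h', zero_add] at h⟩
    · left; exact ⟨by rwa [h', add_zero] at h, h'⟩
  refine ⟨⟨?_, ?_, ?_, ?_⟩, h0⟩
  · intro S h
    rcases h1 S h with h' | h'
    · exact hu.ok S h'.1
    · exact hw.ok S h'.2
  · intro S h
    rcases h1 S h with h' | h'
    · exact hu.notMem S h'.1
    · exact fun hF => hw.notMem S h'.2 (mem_union_left _ hF)
  · intro S h
    rcases h1 S h with h' | h'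
    · rw [h'.2, add_zero]; exact hu.sign S h'.1
    · rw [h'.1, zero_add]; exact hw.sign S h'.2
  · intro S S' h h' hk
    rcases h1 S h with a | a <;> rcases h1 S' h' with b | b
    · exact hu.inj S S' a.1 b.1 hk
    · exact absurd hk (hd S S' a.1 b.2)
    · exact absurd hk.symm (hd S' S b.1 a.2)
    · exact hw.inj S S' a.2 b.2 hk

theorem card_supp_add (u w : Finset X → ℤ) :
    (supp (fun S => u S + w S)).card ≤ (supp u).card + (supp w).card := by
  refine le_trans (card_le_card ?_) (card_union_le _ _)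
  intro S h
  rw [mem_supp] at h
  rw [mem_union, mem_supp, mem_supp]
  by_contra h'
  push Not at h'
  exact h (by rw [h'.1, h'.2, add_zero])

theorem card_forbid (F : Finset K) (u : Finset X → ℤ) :
    (F ∪ (supp u).image key).card ≤ F.card + (supp u).card :=
  le_trans (card_union_le _ _) (Nat.add_le_add_left card_image_le _)

variable {A : Type} [AddCommGroup A] {μ : Finset X → A}

omit [DecidableEq X] [DecidableEq K] in
theorem Rep.zero : Rep ok key M μ 0 0 := by
  intro F _
  refine ⟨fun _ => 0, Fresh.zero F, ?_, by simp⟩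
  simp [supp]

omit [DecidableEq X] [DecidableEq K] in
theorem Rep.mono {y : A} {N N' : ℕ} (h : Rep ok key M μ y N) (hN : N ≤ N') :
    Rep ok key M μ y N' := by
  intro F hF
  obtain ⟨u, h1, h2, h3⟩ := h F (by omega)
  exact ⟨u, h1, h2.trans hN, h3⟩

theorem Rep.add {y z : A} {N N' : ℕ} (h : Rep ok key M μ y N) (h' : Rep ok key M μ z N') :
    Rep ok key M μ (y + z) (N + N') := by
  intro F hF
  obtain ⟨u, h1, h2, h3⟩ := h F (by omega)
  have := card_forbid (key := key) F u
  obtain ⟨w, g1, g2, g3⟩ := h' (F ∪ (supp u).image key) (by omega)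
  refine ⟨fun S => u S + w S, (h1.add g1).1, ?_, ?_⟩
  · have := card_supp_add u w
    omega
  · simp only [add_smul, sum_add_distrib, h3, g3]

omit [DecidableEq X] [DecidableEq K] in
theorem Rep.neg {y : A} {N : ℕ} (h : Rep ok key M μ y N) : Rep ok key M μ (-y) N := by
  intro F hF
  obtain ⟨u, h1, h2, h3⟩ := h F hF
  refine ⟨fun S => - u S, ⟨?_, ?_, ?_, ?_⟩, ?_, ?_⟩
  · intro S h; exact h1.ok S (neg_ne_zero.1 h)
  · intro S h; exact h1.notMem S (neg_ne_zero.1 h)
  · intro S h
    rcases h1.sign S (neg_ne_zero.1 h) with a | a <;> simp [a]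
  · intro S S' h h'; exact h1.inj S S' (neg_ne_zero.1 h) (neg_ne_zero.1 h')
  · have : supp (fun S => - u S) = supp u := by
      ext S; simp [mem_supp]
    rw [this]; exact h2
  · simp only [neg_smul, sum_neg_distrib, h3]

theorem Rep.nsmul {y : A} {N : ℕ} (h : Rep ok key M μ y N) (n : ℕ) :
    Rep ok key M μ (n • y) (n * N) := by
  induction n with
  | zero => simpa using Rep.zero
  | succ n ih =>
    rw [succ_nsmul, Nat.succ_mul]
    exact ih.add h

theorem Rep.zsmul {y : A} {N : ℕ} (h : Rep ok key M μ y N) (z : ℤ) :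
    Rep ok key M μ (z • y) (z.natAbs * N) := by
  rcases Int.natAbs_eq z with hz | hz
  · have := h.nsmul z.natAbs
    rwa [← natCast_zsmul, ← hz] at this
  · have := (h.nsmul z.natAbs).neg
    rwa [← natCast_zsmul, ← neg_smul, ← hz] at this

theorem Rep.sum {ι : Type} (s : Finset ι) (y : ι → A) (N : ℕ)
    (h : ∀ i ∈ s, Rep ok key M μ (y i) N) : Rep ok key M μ (∑ i ∈ s, y i) (s.card * N) := by
  classical
  induction s using Finset.induction_on with
  | empty => simpa using Rep.zero
  | insert i s hi ih =>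
    rw [sum_insert hi, card_insert_of_notMem hi, Nat.succ_mul, add_comm (s.card * N)]
    exact (h i (mem_insert_self _ _)).add (ih (fun j hj => h j (mem_insert_of_mem hj)))

/-- An integer combination with bounded coefficients. -/
theorem Rep.sum_zsmul {ι : Type} (s : Finset ι) (y : ι → A) (c : ι → ℤ) (N Z : ℕ)
    (h : ∀ i ∈ s, Rep ok key M μ (y i) N) (hc : ∀ i ∈ s, (c i).natAbs ≤ Z) :
    Rep ok key M μ (∑ i ∈ s, c i • y i) (s.card * (Z * N)) :=
  Rep.sum s _ _ (fun i hi => ((h i hi).zsmul (c i)).mono (Nat.mul_le_mul_right _ (hc i hi)))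

end Pool.Agent.MP_f6f5a0_co

end MrgPart0

-- ======== part 1: formerly Pool.Agent.MP_f6f5a0_co.Elem
section MrgPart1

/-!
Integral solutions of the inclusion equations for pairs, with a bound on their size
(a bounded form of the Graver-Jurkat / Wilson theorem for `t = 2`), chosen fresh.
-/

set_option autoImplicit false
set_option linter.unusedSectionVars false

namespace Pool.Agent.MP_f6f5a0_co

open Finset

variable {X K : Type} [Fintype X] [DecidableEq X] [DecidableEq K]
variable {ok : Finset X → Prop} {key : Finset X → K} {M : ℕ}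

theorem exists_of_family {ι : Type} [Fintype ι] [DecidableEq ι] {F : Finset K}
    (T : ι → Finset X) (ε : ι → ℤ) (hε : ∀ i, ε i = 1 ∨ ε i = -1) (hok : ∀ i, ok (T i))
    (hF : ∀ i, key (T i) ∉ F) (hinj : ∀ i j, key (T i) = key (T j) → i = j)
    {A : Type} [AddCommGroup A] (μ : Finset X → A) :
    ∃ u : Finset X → ℤ, Fresh ok key F u ∧ (supp u).card ≤ Fintype.card ι ∧
      ∑ S, u S • μ S = ∑ i, ε i • μ (T i) := by
  have hT : ∀ i j, T i = T j → i = j := fun i j h => hinj i j (by rw [h])
  let u : Finset X → ℤ := fun S => ∑ i, if T i = S then ε i else 0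
  have hu : ∀ S, u S ≠ 0 → ∃ i, T i = S ∧ u S = ε i := by
    intro S h
    obtain ⟨i, -, hi⟩ := exists_ne_zero_of_sum_ne_zero h
    have hiS : T i = S := by
      by_contra h'
      simp [h'] at hi
    refine ⟨i, hiS, ?_⟩
    show (∑ i, if T i = S then ε i else 0) = ε i
    rw [sum_eq_single i]
    · simp [hiS]
    · intro j _ hj
      rw [if_neg]
      intro h'
      exact hj (hT j i (h'.trans hiS.symm))
    · simp
  refine ⟨u, ⟨?_, ?_, ?_, ?_⟩, ?_, ?_⟩
  · intro S h
    obtain ⟨i, rfl, -⟩ := hu S h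
    exact hok i
  · intro S h
    obtain ⟨i, rfl, -⟩ := hu S h
    exact hF i
  · intro S h
    obtain ⟨i, -, hi⟩ := hu S h
    rw [hi]; exact hε i
  · intro S S' h h' hk
    obtain ⟨i, rfl, -⟩ := hu S h
    obtain ⟨j, rfl, -⟩ := hu S' h'
    rw [hinj i j hk]
  · have : supp u ⊆ univ.image T := by
      intro S h
      obtain ⟨i, rfl, -⟩ := hu S (mem_supp.1 h)
      exact mem_image_of_mem _ (mem_univ _)
    exact (card_le_card this).trans (card_image_le.trans (by simp))
  · simp only [u, sum_smul]
    rw [sum_comm]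
    refine sum_congr rfl (fun i _ => ?_)
    rw [sum_eq_single (T i)]
    · simp
    · intro S _ hS
      rw [if_neg (Ne.symm hS), zero_smul]
    · simp

/-- Indicator function of a set. -/
def ind (S : Finset X) : X → ℤ := fun p => if p ∈ S then 1 else 0

/-- Indicator function of a point. -/
def dl (x : X) : X → ℤ := fun p => if p = x then 1 else 0

/-- The second moment matrix of a set. -/
def mu2 (S : Finset X) : X → X → ℤ := fun p q => ind S p * ind S q

/-- Symmetrised product. -/
def symp (d e : X → ℤ) : X → X → ℤ := fun p q => d p * e q + e p * d q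

/-- The key decides whether the point lies in the set. -/
def Special (key : Finset X → K) (s : X) : Prop :=
  ∀ S S', key S = key S' → (s ∈ S ↔ s ∈ S')

/-- There is always room for a fresh choice. -/
def Room (ok : Finset X → Prop) (key : Finset X → K) (M : ℕ) : Prop :=
  ∀ (W : Finset X) (t : ℕ), t ≤ 2 → W.card = 2 * t → ∀ F : Finset K, F.card ≤ M →
    ∃ R : Finset X, Disjoint R W ∧ ∀ A, A ⊆ W → A.card = t → ok (R ∪ A) ∧ key (R ∪ A) ∉ F

theorem rep_level0 (hR : Room ok key M) : Rep ok key M (fun _ => (1 : ℤ)) 1 1 := by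
  intro F hF
  obtain ⟨R, -, h⟩ := hR ∅ 0 (by omega) (by simp) F (by omega)
  have h1 := h ∅ (by simp) (by simp)
  obtain ⟨u, h2, h3, h4⟩ := exists_of_family (ι := Unit) (ok := ok) (key := key) (F := F)
    (fun _ => R ∪ ∅) (fun _ => 1) (fun _ => Or.inl rfl) (fun _ => h1.1) (fun _ => h1.2)
    (fun _ _ _ => rfl) (fun _ => (1 : ℤ))
  exact ⟨u, h2, by simpa using h3, by simpa using h4⟩

theorem rep_level1 (hR : Room ok key M) {a : X} (ha : Special key a) (x : X) :
    Rep ok key M ind (dl x - dl a) 2 := by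
  by_cases hx : x = a
  · subst hx
    simpa using (Rep.zero (ok := ok) (key := key) (M := M) (μ := ind)).mono (Nat.zero_le 2)
  intro F hF
  obtain ⟨R, hd, h⟩ := hR {x, a} 1 (by omega) (card_pair hx) F (by omega)
  have hxR : x ∉ R := fun h' => disjoint_left.1 hd h' (by simp)
  have haR : a ∉ R := fun h' => disjoint_left.1 hd h' (by simp)
  let pt : Bool → X := fun i => if i then x else a
  have h1 : ∀ i, ok (R ∪ {pt i}) ∧ key (R ∪ {pt i}) ∉ F := by
    intro i
    apply h
    · cases i <;> simp [pt]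
    · simp
  obtain ⟨u, h2, h3, h4⟩ := exists_of_family (ι := Bool) (ok := ok) (key := key) (F := F)
    (fun i => R ∪ {pt i}) (fun i => if i then 1 else -1) (fun i => by cases i <;> simp)
    (fun i => (h1 i).1) (fun i => (h1 i).2)
    (fun i j hk => by
      have := ha _ _ hk
      cases i <;> cases j <;> simp_all [pt, eq_comm]) ind
  refine ⟨u, h2, by simpa using h3, ?_⟩
  rw [h4]
  ext p
  simp only [Fintype.sum_bool, pt, ind, dl, Pi.add_apply, Pi.smul_apply, Pi.sub_apply, mem_union,
    mem_singleton, smul_eq_mul]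
  by_cases h1 : p = x <;> by_cases h2 : p = a <;> by_cases h3 : p ∈ R <;> simp_all

theorem ind_union_pair {R : Finset X} {x y : X} (hx : x ∉ R) (hy : y ∉ R) (hxy : x ≠ y) :
    ind (R ∪ {x, y}) = ind R + dl x + dl y := by
  ext p
  simp only [ind, dl, Pi.add_apply, mem_union, mem_insert, mem_singleton]
  by_cases h1 : p = x <;> by_cases h2 : p = y <;> by_cases h3 : p ∈ R <;> simp_all

theorem rep_level2 (hR : Room ok key M) {x1 y1 x2 y2 : X} (hy1 : Special key y1)
    (hy2 : Special key y2) (h1 : x1 ≠ y1) (h2 : x1 ≠ x2) (h3 : x1 ≠ y2) (h4 : y1 ≠ x2)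
    (h5 : y1 ≠ y2) (h6 : x2 ≠ y2) :
    Rep ok key M mu2 (symp (dl x1 - dl y1) (dl x2 - dl y2)) 4 := by
  intro F hF
  have hW : ({x1, y1, x2, y2} : Finset X).card = 2 * 2 := by
    rw [card_insert_of_notMem (by simp [h1, h2, h3]), card_insert_of_notMem (by simp [h4, h5]),
      card_pair h6]
  obtain ⟨R, hd, h⟩ := hR {x1, y1, x2, y2} 2 (by omega) hW F (by omega)
  have g1 : x1 ∉ R := fun h' => disjoint_left.1 hd h' (by simp)
  have g2 : y1 ∉ R := fun h' => disjoint_left.1 hd h' (by simp)
  have g3 : x2 ∉ R := fun h' => disjoint_left.1 hd h' (by simp)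
  have g4 : y2 ∉ R := fun h' => disjoint_left.1 hd h' (by simp)
  let p1 : Bool → X := fun i => if i then x1 else y1
  let p2 : Bool → X := fun i => if i then x2 else y2
  have hne : ∀ i j, p1 i ≠ p2 j := by
    intro i j
    cases i <;> cases j <;> simp [p1, p2, h2, h3, h4, h5]
  have g : ∀ i : Bool × Bool, ok (R ∪ {p1 i.1, p2 i.2}) ∧ key (R ∪ {p1 i.1, p2 i.2}) ∉ F := by
    rintro ⟨i, j⟩
    apply h
    · cases i <;> cases j <;> simp [p1, p2, insert_subset_iff]
    · exact card_pair (hne i j)
  obtain ⟨u, k2, k3, k4⟩ := exists_of_family (ι := Bool × Bool) (ok := ok) (key := key) (F := F)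
    (fun i => R ∪ {p1 i.1, p2 i.2})
    (fun i => (if i.1 then 1 else -1) * (if i.2 then 1 else -1))
    (by rintro ⟨i, j⟩; cases i <;> cases j <;> simp)
    (fun i => (g i).1) (fun i => (g i).2)
    (by
      rintro ⟨i, j⟩ ⟨i', j'⟩ hk
      have a1 := hy1 _ _ hk
      have a2 := hy2 _ _ hk
      have b1 := h1.symm
      have b3 := h3.symm
      have b5 := h5.symm
      have b6 := h6.symm
      cases i <;> cases j <;> cases i' <;> cases j' <;> simp_all [p1, p2]) mu2
  refine ⟨u, k2, by simpa using k3, ?_⟩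
  rw [k4]
  ext p q
  simp only [Fintype.sum_prod_type, Fintype.sum_bool, p1, p2, mu2, symp, Pi.add_apply,
    Pi.smul_apply, Pi.sub_apply, smul_eq_mul, if_true, Bool.false_eq_true, if_false,
    ind_union_pair g1 g3 h2, ind_union_pair g1 g4 h3, ind_union_pair g2 g3 h4,
    ind_union_pair g2 g4 h5]
  ring

end Pool.Agent.MP_f6f5a0_co

end MrgPart1

-- ======== part 2: formerly Pool.Agent.MP_f6f5a0_co.Levels
section MrgPart2

/-!
The three levels of the bounded integral solution.
-/

set_option autoImplicit false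
set_option linter.unusedSectionVars false

namespace Pool.Agent.MP_f6f5a0_co

open Finset

variable {X K : Type} [Fintype X] [DecidableEq X] [DecidableEq K]
variable {ok : Finset X → Prop} {key : Finset X → K} {M : ℕ}

theorem sum_dl (x : X) : ∑ p, dl x p = 1 := by simp [dl]

theorem rep_L0 (hR : Room ok key M) (y : ℤ) (Z : ℕ) (hy : y.natAbs ≤ Z) :
    Rep ok key M (fun _ => (1 : ℤ)) y Z := by
  have := ((rep_level0 hR).zsmul y).mono (N' := Z) (by simpa using hy)
  simpa using this

theorem rep_L1 (hR : Room ok key M) {a : X} (ha : Special key a) (w : X → ℤ)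
    (hw : ∑ x, w x = 0) (Z : ℕ) (hZ : ∀ x, (w x).natAbs ≤ Z) :
    Rep ok key M ind w (Fintype.card X * (Z * 2)) := by
  have h := Rep.sum_zsmul (ok := ok) (key := key) (M := M) (μ := ind) univ
    (fun x => dl x - dl a) w 2 Z (fun x _ => rep_level1 hR ha x) (fun x _ => hZ x)
  have e : ∑ x, w x • (dl x - dl a) = w := by
    ext p
    simp only [Finset.sum_apply, Pi.smul_apply, Pi.sub_apply, smul_eq_mul, mul_sub,
      sum_sub_distrib, ← sum_mul, hw, zero_mul, sub_zero, dl]
    simp
  rwa [e] at h

theorem sum_symp_row (d e : X → ℤ) (hd : ∑ x, d x = 0) (he : ∑ x, e x = 0) (p : X) :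
    ∑ q, symp d e p q = 0 := by
  simp only [symp, sum_add_distrib, ← mul_sum, hd, he, mul_zero, add_zero]

theorem sum_dl_sub (x y : X) : ∑ p, (dl x - dl y) p = 0 := by
  simp [sum_sub_distrib, sum_dl]

theorem natAbs_dl_sub (x y p : X) : ((dl x - dl y) p).natAbs ≤ 1 := by
  simp only [dl, Pi.sub_apply]
  split_ifs <;> simp

theorem natAbs_symp (x y x' y' p q : X) :
    (symp (dl x - dl y) (dl x' - dl y') p q).natAbs ≤ 2 := by
  unfold symp
  refine (Int.natAbs_add_le _ _).trans ?_
  rw [Int.natAbs_mul, Int.natAbs_mul]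
  have h1 := natAbs_dl_sub x y p
  have h2 := natAbs_dl_sub x y q
  have h3 := natAbs_dl_sub x' y' p
  have h4 := natAbs_dl_sub x' y' q
  have := Nat.mul_le_mul h1 h4
  have := Nat.mul_le_mul h3 h2
  omega

theorem sum_split {a b : X} (hab : a ≠ b) (f : X → ℤ) :
    ∑ x, f x = f a + f b + ∑ x ∈ univ.filter (fun x => x ≠ a ∧ x ≠ b), f x := by
  have : (univ : Finset X) = insert a (insert b (univ.filter (fun x => x ≠ a ∧ x ≠ b))) := by
    ext x
    simp only [mem_univ, mem_insert, mem_filter, true_and, true_iff]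
    tauto
  rw [this, sum_insert (by simp [hab]), sum_insert (by simp), ← this, add_assoc]

/-- The last step: a matrix living on the rows and columns of `a` and `b`. -/
theorem rep_L2b (hR : Room ok key M) {a b c : X} (hb : Special key b)
    (hc : Special key c) (hab : a ≠ b) (hac : a ≠ c) (hbc : b ≠ c) (z : X → X → ℤ)
    (hsym : ∀ p q, z p q = z q p) (hdiag : ∀ p, z p p = 0) (hrow : ∀ p, ∑ q, z p q = 0)
    (hvan : ∀ p q, p ≠ a → p ≠ b → q ≠ a → q ≠ b → z p q = 0)
    (Z : ℕ) (hZ : ∀ p q, (z p q).natAbs ≤ Z) :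
    Rep ok key M mu2 z (Fintype.card X * (Z * 4)) := by
  set V := univ.filter (fun x : X => x ≠ a ∧ x ≠ b) with hV
  have hmem : ∀ x, x ∈ V ↔ x ≠ a ∧ x ≠ b := by simp [hV]
  have h := Rep.sum_zsmul (ok := ok) (key := key) (M := M) (μ := mu2) V
    (fun x => symp (dl x - dl c) (dl a - dl b)) (fun x => z x a) 4 Z
    (fun x hx => by
      by_cases hxc : x = c
      · subst hxc
        have : symp (dl x - dl x) (dl a - dl b) = 0 := by
          ext p q; simp [symp]
        rw [this]
        exact Rep.zero.mono (Nat.zero_le _)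
      · exact rep_level2 hR hc hb hxc ((hmem x).1 hx).1 ((hmem x).1 hx).2 hac.symm hbc.symm hab)
    (fun x _ => hZ x a)
  have h1 : ∀ x ∈ V, z x b = - z x a := by
    intro x hx
    have := hrow x
    rw [sum_split hab, sum_eq_zero (fun q hq => hvan x q ((hmem x).1 hx).1 ((hmem x).1 hx).2
      ((hmem q).1 hq).1 ((hmem q).1 hq).2)] at this
    linarith
  have h2 := hrow a
  have h3 := hrow b
  rw [sum_split hab, hdiag] at h2 h3
  rw [sum_congr rfl (fun x _ => hsym a x)] at h2
  rw [sum_congr rfl (fun x hx => (hsym b x).trans (h1 x hx)), sum_neg_distrib, hsym b a] at h3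
  have h4 : z a b = 0 := by linarith
  have h5 : ∑ x ∈ V, z x a = 0 := by linarith
  let g : X → ℤ := fun p => if p ≠ a ∧ p ≠ b then z p a else 0
  have hg : ∀ p, ∑ x ∈ V, z x a * (dl x - dl c) p = g p := by
    intro p
    simp only [Pi.sub_apply, mul_sub, sum_sub_distrib, ← sum_mul, h5, zero_mul, sub_zero]
    simp only [dl, mul_ite, mul_one, mul_zero, g]
    rw [sum_ite_eq]
    simp [hmem]
  have e : ∑ x ∈ V, z x a • symp (dl x - dl c) (dl a - dl b) = z := by
    ext p q
    simp only [Finset.sum_apply, Pi.smul_apply, smul_eq_mul, symp, mul_add, sum_add_distrib]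
    have e1 : ∑ x ∈ V, z x a * ((dl x - dl c) p * (dl a - dl b) q) = g p * (dl a - dl b) q := by
      rw [← hg, sum_mul]; exact sum_congr rfl (fun x _ => by ring)
    have e2 : ∑ x ∈ V, z x a * ((dl a - dl b) p * (dl x - dl c) q) = (dl a - dl b) p * g q := by
      rw [← hg, mul_sum]; exact sum_congr rfl (fun x _ => by ring)
    rw [e1, e2]
    have hba := hab.symm
    simp only [g, dl, Pi.sub_apply]
    by_cases p1 : p = a
    · subst p1
      by_cases q1 : q = p
      · subst q1; simp [hdiag]
      · by_cases q2 : q = b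
        · subst q2; simp [h4]
        · simp [q1, q2, hab, hsym q p]
    · by_cases p2 : p = b
      · subst p2
        by_cases q1 : q = a
        · subst q1; simp [hsym p q, h4]
        · by_cases q2 : q = p
          · subst q2; simp [hdiag]
          · simp [q1, q2, hba, hsym p q, h1 q ((hmem q).2 ⟨q1, q2⟩)]
      · by_cases q1 : q = a
        · subst q1; simp [p1, p2, hab]
        · by_cases q2 : q = b
          · subst q2; simp [p1, p2, hba, h1 p ((hmem p).2 ⟨p1, p2⟩)]
          · simp [p1, p2, q1, q2, hvan p q p1 p2 q1 q2]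
  rw [e] at h
  exact h.mono (Nat.mul_le_mul_right _ (card_le_univ _))

theorem natAbs_sum_le {ι : Type} (s : Finset ι) (f : ι → ℤ) (B : ℕ)
    (h : ∀ i ∈ s, (f i).natAbs ≤ B) : (∑ i ∈ s, f i).natAbs ≤ s.card * B := by
  refine (Int.natAbs_sum_le s f).trans ?_
  simpa using sum_le_card_nsmul s _ B h

theorem rep_L2 (hR : Room ok key M) {a b c : X} (ha : Special key a) (hb : Special key b)
    (hc : Special key c) (hab : a ≠ b) (hac : a ≠ c) (hbc : b ≠ c) (z : X → X → ℤ)
    (hsym : ∀ p q, z p q = z q p) (hdiag : ∀ p, z p p = 0) (hrow : ∀ p, ∑ q, z p q = 0)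
    (Z : ℕ) (hZ : ∀ p q, (z p q).natAbs ≤ Z) :
    Rep ok key M mu2 z (Fintype.card X * Fintype.card X * (Z * 4) +
      Fintype.card X * ((Z + Fintype.card X * Fintype.card X * (Z * 2)) * 4)) := by
  let o : X → ℕ := fun x => (Fintype.equivFin X x).val
  have ho : ∀ x y, o x = o y → x = y := fun x y h =>
    (Fintype.equivFin X).injective (Fin.ext h)
  set P : Finset (X × X) := univ.filter
    (fun r => r.1 ≠ a ∧ r.1 ≠ b ∧ r.2 ≠ a ∧ r.2 ≠ b ∧ o r.1 < o r.2) with hP
  have hmem : ∀ r : X × X, r ∈ P ↔ r.1 ≠ a ∧ r.1 ≠ b ∧ r.2 ≠ a ∧ r.2 ≠ b ∧ o r.1 < o r.2 := by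
    simp [hP]
  have hPc : P.card ≤ Fintype.card X * Fintype.card X := by
    simpa using card_le_univ P
  have h := Rep.sum_zsmul (ok := ok) (key := key) (M := M) (μ := mu2) P
    (fun r => symp (dl r.1 - dl a) (dl r.2 - dl b)) (fun r => z r.1 r.2) 4 Z
    (fun r hr => by
      obtain ⟨h1, h2, h3, h4, h5⟩ := (hmem r).1 hr
      exact rep_level2 hR ha hb h1 (fun h => by rw [h] at h5; omega) h2 h3.symm hab h4)
    (fun r _ => hZ _ _)
  set w := ∑ r ∈ P, z r.1 r.2 • symp (dl r.1 - dl a) (dl r.2 - dl b) with hw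
  have hwa : ∀ p q, w p q = ∑ r ∈ P, z r.1 r.2 * symp (dl r.1 - dl a) (dl r.2 - dl b) p q := by
    intro p q
    simp only [hw, Finset.sum_apply, Pi.smul_apply, smul_eq_mul]
  have h' := rep_L2b hR hb hc hab hac hbc (z - w) ?_ ?_ ?_ ?_
    (Z + Fintype.card X * Fintype.card X * (Z * 2)) ?_
  · have := (h.mono (Nat.mul_le_mul_right _ hPc)).add h'
    rwa [add_sub_cancel] at this
  · intro p q
    simp only [Pi.sub_apply, hwa, hsym p q, symp]
    congr 1
    exact sum_congr rfl (fun r _ => by ring)
  · intro p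
    simp only [Pi.sub_apply, hwa, hdiag, zero_sub, neg_eq_zero]
    refine sum_eq_zero (fun r hr => ?_)
    obtain ⟨h1, h2, h3, h4, h5⟩ := (hmem r).1 hr
    have h6 : r.1 ≠ r.2 := fun h => by rw [h] at h5; omega
    simp only [symp, dl, Pi.sub_apply]
    by_cases p1 : p = r.1
    · subst p1; simp [h2, h6]
    · by_cases p2 : p = a
      · subst p2; simp [h3.symm, hab]
      · simp [p1, p2]
  · intro p
    simp only [Pi.sub_apply, hwa, sum_sub_distrib, hrow, zero_sub, neg_eq_zero]
    rw [sum_comm]
    refine sum_eq_zero (fun r _ => ?_)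
    rw [← mul_sum, sum_symp_row _ _ (sum_dl_sub _ _) (sum_dl_sub _ _), mul_zero]
  · intro p q p1 p2 q1 q2
    simp only [Pi.sub_apply, hwa, symp, dl, p1, p2, q1, q2, if_false, sub_zero, mul_add,
      sum_add_distrib]
    have e0 : ∀ p q, p ≠ a → p ≠ b → q ≠ a → q ≠ b →
        ∑ r ∈ P, z r.1 r.2 * ((if p = r.1 then 1 else 0) * if q = r.2 then 1 else 0)
        = if o p < o q then z p q else 0 := by
      intro p q p1 p2 q1 q2
      have : ∀ r : X × X, z r.1 r.2 * ((if p = r.1 then 1 else 0) * if q = r.2 then 1 else 0)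
          = if (p, q) = r then z r.1 r.2 else 0 := by
        rintro ⟨s, t⟩
        by_cases h1 : p = s <;> by_cases h2 : q = t <;> simp [h1, h2]
      simp only [this]
      rw [sum_ite_eq]
      simp [hmem, p1, p2, q1, q2]
    have e2 : ∑ r ∈ P, z r.1 r.2 * ((if p = r.2 then 1 else 0) * if q = r.1 then 1 else 0)
        = if o q < o p then z q p else 0 := by
      rw [← e0 q p q1 q2 p1 p2]
      exact sum_congr rfl (fun r _ => by ring)
    rw [e0 p q p1 p2 q1 q2, e2]
    rcases lt_trichotomy (o p) (o q) with h | h | h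
    · simp [h, h.le.not_gt]
    · rw [ho p q h]; simp [hdiag]
    · simp [h, h.le.not_gt, hsym p q]
  · intro p q
    simp only [Pi.sub_apply, hwa]
    refine (Int.natAbs_sub_le _ _).trans (Nat.add_le_add (hZ p q) ?_)
    refine (natAbs_sum_le P _ (Z * 2) (fun r _ => ?_)).trans (Nat.mul_le_mul_right _ hPc)
    rw [Int.natAbs_mul]
    exact Nat.mul_le_mul (hZ _ _) (natAbs_symp _ _ _ _ _ _)

theorem natAbs_moment_le {F : Finset K} {u : Finset X → ℤ} (hu : Fresh ok key F u)
    (g : Finset X → ℤ) (hg : ∀ S, (g S).natAbs ≤ 1) :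
    (∑ S, u S * g S).natAbs ≤ (supp u).card := by
  have : ∑ S, u S * g S = ∑ S ∈ supp u, u S * g S := by
    symm
    refine sum_subset (subset_univ _) (fun S _ hS => ?_)
    rw [mem_supp, not_not] at hS
    rw [hS, zero_mul]
  rw [this]
  refine (natAbs_sum_le _ _ 1 (fun S hS => ?_)).trans (by simp)
  rw [Int.natAbs_mul]
  have h1 : (u S).natAbs ≤ 1 := by
    rcases hu.sign S (mem_supp.1 hS) with h | h <;> simp [h]
  exact Nat.mul_le_mul h1 (hg S)

theorem natAbs_ind (S : Finset X) (p : X) : (ind S p).natAbs ≤ 1 := by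
  unfold ind; split_ifs <;> simp

theorem natAbs_mu2 (S : Finset X) (p q : X) : (mu2 S p q).natAbs ≤ 1 := by
  unfold mu2; rw [Int.natAbs_mul]; exact Nat.mul_le_mul (natAbs_ind S p) (natAbs_ind S q)

theorem sum_ind (S : Finset X) : ∑ p, ind S p = S.card := by simp [ind]

theorem mu2_diag (S : Finset X) (p : X) : mu2 S p p = ind S p := by
  unfold mu2 ind; split_ifs <;> simp

theorem sum_mu2_row (S : Finset X) (p : X) : ∑ q, mu2 S p q = S.card * ind S p := by
  simp only [mu2, ← mul_sum, sum_ind, mul_comm]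

/-- The total cost of the representation. -/
def cost (v β : ℕ) : ℕ :=
  β + v * ((β + β) * 2) + (v * v * ((β + (β + v * ((β + β) * 2))) * 4) +
      v * (((β + (β + v * ((β + β) * 2))) + v * v * ((β + (β + v * ((β + β) * 2))) * 2)) * 4))

/-- Bounded integral solution. -/
theorem rep_main (hR : Room ok key M) {k : ℕ} (hk : ∀ S, ok S → S.card = k) {a b c : X}
    (ha : Special key a) (hb : Special key b)
    (hc : Special key c) (hab : a ≠ b) (hac : a ≠ c) (hbc : b ≠ c) (y0 : ℤ) (y : X → X → ℤ)
    (hsym : ∀ p q, y p q = y q p) (hdiag : ∑ p, y p p = k * y0)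
    (hrow : ∀ p, ∑ q, y p q = k * y p p) (β : ℕ) (h0 : y0.natAbs ≤ β)
    (hβ : ∀ p q, (y p q).natAbs ≤ β) :
    Rep ok key M mu2 y (cost (Fintype.card X) β) := by
  intro F hF
  set v := Fintype.card X with hv
  unfold cost at hF ⊢
  obtain ⟨u0, f0, c0, m0⟩ := rep_L0 hR y0 β h0 F (by omega)
  simp only [smul_eq_mul, mul_one] at m0
  have hrowu : ∀ {G : Finset K} {u : Finset X → ℤ}, Fresh ok key G u → ∀ p,
      ∑ q, ∑ S, u S * mu2 S p q = k * ∑ S, u S * ind S p := by
    intro G u hu p
    rw [sum_comm, mul_sum]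
    refine sum_congr rfl (fun S _ => ?_)
    rw [← mul_sum, sum_mu2_row]
    by_cases h : u S = 0
    · simp [h]
    · rw [hk S (hu.ok S h)]; ring
  have hw : ∑ p, (y p p - ∑ S, u0 S * ind S p) = 0 := by
    rw [sum_sub_distrib, hdiag, sum_comm, ← m0, mul_sum, sub_eq_zero]
    refine sum_congr rfl (fun S _ => ?_)
    rw [← mul_sum, sum_ind]
    by_cases h : u0 S = 0
    · simp [h]
    · rw [hk S (f0.ok S h)]; ring
  have hF0 := card_forbid (key := key) F u0
  obtain ⟨u1, f1, c1, m1⟩ := rep_L1 hR ha (fun p => y p p - ∑ S, u0 S * ind S p) hw (β + β)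
    (fun p => (Int.natAbs_sub_le _ _).trans (Nat.add_le_add (hβ p p)
      ((natAbs_moment_le f0 _ (fun S => natAbs_ind S p)).trans c0)))
    (F ∪ (supp u0).image key) (by rw [← hv]; omega)
  rw [← hv] at c1
  have f01 := (f0.add f1).1
  have c01 := card_supp_add u0 u1
  set u : Finset X → ℤ := fun S => u0 S + u1 S with hu
  have m01 : ∀ p, ∑ S, u S * ind S p = y p p := by
    intro p
    have := congrFun m1 p
    simp only [Finset.sum_apply, Pi.smul_apply, smul_eq_mul] at this
    simp only [hu, add_mul, sum_add_distrib, this]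
    ring
  have hF1 := card_forbid (key := key) F u
  obtain ⟨u2, f2, c2, m2⟩ := rep_L2 hR ha hb hc hab hac hbc
    (fun p q => y p q - ∑ S, u S * mu2 S p q)
    (fun p q => by simp only [hsym p q, mu2, mul_comm (ind _ p)])
    (fun p => by simp only [mu2_diag, m01, sub_self])
    (fun p => by rw [sum_sub_distrib, hrow, hrowu f01, m01, sub_self])
    (β + (β + v * ((β + β) * 2)))
    (fun p q => (Int.natAbs_sub_le _ _).trans (Nat.add_le_add (hβ p q)
      ((natAbs_moment_le f01 _ (fun S => natAbs_mu2 S p q)).trans (by omega))))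
    (F ∪ (supp u).image key) (by rw [← hv]; omega)
  rw [← hv] at c2
  refine ⟨fun S => u S + u2 S, (f01.add f2).1, ?_, ?_⟩
  · have := card_supp_add u u2
    omega
  · ext p q
    have := congrFun (congrFun m2 p) q
    simp only [Finset.sum_apply, Pi.smul_apply, smul_eq_mul] at this ⊢
    simp only [add_mul, sum_add_distrib, this]
    ring

end Pool.Agent.MP_f6f5a0_co

end MrgPart2

-- ======== part 3: formerly Pool.Agent.MP_f6f5a0_co.Abstract
section MrgPart3

/-!
The absorption argument in abstract form.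
-/

set_option autoImplicit false
set_option linter.unusedSectionVars false

namespace Pool.Agent.MP_f6f5a0_co

open Finset

variable {X K : Type} [Fintype X] [DecidableEq X] [DecidableEq K]

theorem choose_le_choose_add (n r t : ℕ) : n.choose r ≤ (n + t).choose (r + t) := by
  induction t with
  | zero => simp
  | succ t ih =>
    rw [← add_assoc, ← add_assoc, Nat.choose_succ_succ']
    omega

theorem room_of_count (k : ℕ) (hk : 2 ≤ k) (good : Finset X → Prop) [DecidablePred good]
    (key : Finset X → K) (L β M : ℕ)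
    (hfib : ∀ κ, (univ.filter (fun S => good S ∧ key S = κ)).card ≤ L)
    (hβ : (univ.filter (fun S => ¬ good S)).card ≤ β)
    (hv : 4 ≤ Fintype.card X)
    (hcap : β + M * L < (Fintype.card X - 4).choose (k - 2)) :
    Room (fun S => S.card = k ∧ good S) key M := by
  intro W t ht hW F hF
  set B : Finset (Finset X) := univ.filter (fun S => ¬ good S) ∪
    F.biUnion (fun κ => univ.filter (fun S => good S ∧ key S = κ)) with hB
  have hBc : B.card ≤ β + M * L := by
    refine (card_union_le _ _).trans (Nat.add_le_add hβ ?_)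
    refine (card_biUnion_le_card_mul _ _ L (fun κ _ => hfib κ)).trans ?_
    exact Nat.mul_le_mul_right _ hF
  have hP : (Fintype.card X - 4).choose (k - 2) ≤ (powersetCard (k - t) Wᶜ).card := by
    rw [card_powersetCard, card_compl, hW]
    have h1 := choose_le_choose_add (Fintype.card X - 4) (k - 2) (2 - t)
    have h2 : k - 2 + (2 - t) = k - t := by omega
    rw [h2] at h1
    exact h1.trans (Nat.choose_le_choose _ (by omega))
  have hlt : (B.image (fun S => S \ W)).card < (powersetCard (k - t) Wᶜ).card :=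
    lt_of_le_of_lt (card_image_le.trans hBc) (hcap.trans_le hP)
  obtain ⟨R, hR1, hR2⟩ := exists_mem_notMem_of_card_lt_card hlt
  rw [mem_powersetCard] at hR1
  have hd : Disjoint R W := by
    rw [disjoint_left]
    intro x hx
    exact mem_compl.1 (hR1.1 hx)
  refine ⟨R, hd, fun A hA hAc => ?_⟩
  have hnB : R ∪ A ∉ B := by
    intro h
    apply hR2
    refine mem_image.2 ⟨R ∪ A, h, ?_⟩
    rw [union_sdiff_distrib, sdiff_eq_empty_iff_subset.2 hA, union_empty]
    exact sdiff_eq_self_of_disjoint hd
  have hg : good (R ∪ A) := by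
    by_contra h
    exact hnB (mem_union_left _ (by simpa using h))
  refine ⟨⟨?_, hg⟩, fun h => hnB (mem_union_right _ (mem_biUnion.2 ⟨_, h, by simpa using hg⟩))⟩
  rw [card_union_of_disjoint (hd.mono_right hA), hR1.2, hAc]
  omega

theorem card_supersets (k : ℕ) (T : Finset X) (hT : T.card ≤ k) :
    (univ.filter (fun S : Finset X => S.card = k ∧ T ⊆ S)).card
      = (Fintype.card X - T.card).choose (k - T.card) := by
  rw [← card_compl, ← card_powersetCard]
  refine card_bij' (fun S _ => S \ T) (fun R _ => R ∪ T) ?_ ?_ ?_ ?_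
  · intro S hS
    rw [mem_filter] at hS
    rw [mem_powersetCard]
    refine ⟨fun x hx => mem_compl.2 (mem_sdiff.1 hx).2, ?_⟩
    rw [card_sdiff_of_subset hS.2.2, hS.2.1]
  · intro R hR
    rw [mem_powersetCard] at hR
    have hd : Disjoint R T := disjoint_left.2 (fun x hx => mem_compl.1 (hR.1 hx))
    simp only [mem_filter, mem_univ, true_and, subset_union_right, and_true]
    rw [card_union_of_disjoint hd, hR.2]
    omega
  · intro S hS
    rw [mem_filter] at hS
    exact sdiff_union_of_subset hS.2.2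
  · intro R hR
    rw [mem_powersetCard] at hR
    have hd : Disjoint R T := disjoint_left.2 (fun x hx => mem_compl.1 (hR.1 hx))
    rw [union_sdiff_right]
    exact sdiff_eq_self_of_disjoint hd

theorem zmod3_cases (c : ZMod 3) : c = 0 ∨ c = 1 ∨ c = 2 := by revert c; decide

/-- The rotation hypothesis. -/
def Rot (good : Finset X → Prop) (key : Finset X → K) (col : Finset X → ZMod 3) : Prop :=
  ∀ T : Finset X, T.card ≤ 2 → ∃ τ : Finset X → Finset X,
    (∀ S, good S → T ⊆ S → (τ S).card = S.card ∧ good (τ S) ∧ T ⊆ τ S ∧ key (τ S) = key S ∧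
      col (τ S) = col S + 1) ∧ ∀ S S', good S → good S' → τ S = τ S' → S = S'

theorem good_balanced {good : Finset X → Prop} [DecidablePred good] {key : Finset X → K}
    {col : Finset X → ZMod 3} (hrot : Rot good key col) (k : ℕ) (φ : K → ZMod 3)
    (T : Finset X) (hT : T.card ≤ 2) (c : ZMod 3) :
    3 * (univ.filter (fun S : Finset X =>
      S.card = k ∧ T ⊆ S ∧ good S ∧ col S + φ (key S) = c)).card =
    (univ.filter (fun S : Finset X => S.card = k ∧ T ⊆ S ∧ good S)).card := by
  obtain ⟨τ, h1, h2⟩ := hrot T hT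
  set N : ZMod 3 → ℕ := fun c => (univ.filter (fun S : Finset X =>
      S.card = k ∧ T ⊆ S ∧ good S ∧ col S + φ (key S) = c)).card with hN
  have hle : ∀ c, N c ≤ N (c + 1) := by
    intro c
    refine card_le_card_of_injOn τ ?_ ?_
    · intro S hS
      simp only [coe_filter, mem_univ, true_and, Set.mem_ofPred_eq] at hS ⊢
      obtain ⟨a1, a2, a3, a4, a5⟩ := h1 S hS.2.2.1 hS.2.1
      refine ⟨a1.trans hS.1, a3, a2, ?_⟩
      rw [a4, a5, ← hS.2.2.2]; ring
    · intro S hS S' hS' h
      simp only [coe_filter, mem_univ, true_and, Set.mem_ofPred_eq] at hS hS'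
      exact h2 S S' hS.2.2.1 hS'.2.2.1 h
  have htot : (univ.filter (fun S : Finset X => S.card = k ∧ T ⊆ S ∧ good S)).card
      = ∑ c, N c := by
    rw [card_eq_sum_card_fiberwise (f := fun S => col S + φ (key S)) (t := univ)
      (fun _ _ => mem_coe.2 (mem_univ _))]
    refine sum_congr rfl (fun c _ => ?_)
    simp only [hN, filter_filter, and_assoc]
  have e : ∑ c, N c = N 0 + N 1 + N 2 := Fin.sum_univ_three N
  have a0 : N 0 ≤ N 1 := hle 0
  have a1 : N 1 ≤ N 2 := hle 1
  have a2 : N 2 ≤ N 0 := hle 2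
  rw [htot, e]
  show 3 * N c = _
  rcases zmod3_cases c with h | h | h <;> rw [h] <;> omega

theorem card_filter_cast (p : Finset X → Prop) [DecidablePred p] :
    ((univ.filter p).card : ℤ) = ∑ S, if p S then 1 else 0 := by
  simp

theorem mu2_eq (S : Finset X) (p q : X) : mu2 S p q = if {p, q} ⊆ S then 1 else 0 := by
  simp only [mu2, ind, insert_subset_iff, singleton_subset_iff]
  by_cases h1 : p ∈ S <;> by_cases h2 : q ∈ S <;> simp [h1, h2]

theorem abstract_main (k : ℕ) (hk : 2 ≤ k) (good : Finset X → Prop) [DecidablePred good]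
    (key : Finset X → K) (col : Finset X → ZMod 3) (hrot : Rot good key col) (L β : ℕ)
    (hfib : ∀ κ, (univ.filter (fun S => good S ∧ key S = κ)).card ≤ L)
    (hβ : (univ.filter (fun S => ¬ good S)).card ≤ β)
    (hv : 4 ≤ Fintype.card X) {a b c : X}
    (ha : Special key a) (hb : Special key b)
    (hc : Special key c) (hab : a ≠ b) (hac : a ≠ c) (hbc : b ≠ c)
    (hdiv : ∀ i ≤ 2, 3 ∣ (Fintype.card X - i).choose (k - i))
    (hcap : β + (2 * cost (Fintype.card X) β) * L < (Fintype.card X - 4).choose (k - 2)) :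
    ∃ f : Finset X → ZMod 3, ∀ c : ZMod 3, ∀ T : Finset X, T.card = 2 →
      3 * (univ.filter (fun S : Finset X => S.card = k ∧ T ⊆ S ∧ f S = c)).card
        = (Fintype.card X - 2).choose (k - 2) := by
  have hR := room_of_count k hk good key L β _ hfib hβ hv hcap
  -- the bad counts
  set bad : Finset X → ℕ := fun T =>
    (univ.filter (fun S : Finset X => S.card = k ∧ T ⊆ S ∧ ¬ good S)).card with hbad
  have hsplit : ∀ T : Finset X, T.card ≤ 2 →
      (univ.filter (fun S : Finset X => S.card = k ∧ T ⊆ S ∧ good S)).card + bad T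
        = (Fintype.card X - T.card).choose (k - T.card) := by
    intro T hT
    rw [← card_supersets k T (by omega),
      ← card_filter_add_card_filter_not (s := univ.filter
        (fun S : Finset X => S.card = k ∧ T ⊆ S)) good]
    simp only [hbad, filter_filter, and_assoc]
  have hbd : ∀ T : Finset X, T.card ≤ 2 → 3 ∣ bad T := by
    intro T hT
    have h1 := hsplit T hT
    have h2 := good_balanced hrot k (fun _ => 0) T hT 0
    have h3 := hdiv T.card hT
    omega
  have hbβ : ∀ T, bad T ≤ β := by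
    intro T
    refine le_trans (card_le_card ?_) hβ
    intro S hS
    simp only [mem_filter, mem_univ, true_and] at hS ⊢
    exact hS.2.2
  set w : Finset X → ℤ := fun S => if S.card = k ∧ ¬ good S then 1 else 0 with hw
  have hb0 : (bad ∅ : ℤ) = ∑ S, w S := by
    simp only [hbad, hw, card_filter_cast, empty_subset, true_and]
  have hb2 : ∀ p q, (bad {p, q} : ℤ) = ∑ S, w S * mu2 S p q := by
    intro p q
    simp only [hbad, hw, card_filter_cast, mu2_eq]
    refine sum_congr rfl (fun S _ => ?_)
    by_cases h1 : S.card = k <;> by_cases h2 : good S <;> by_cases h3 : {p, q} ⊆ S <;>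
      simp [h1, h2, h3]
  have hwk : ∀ S : Finset X, w S * S.card = k * w S := by
    intro S
    simp only [hw]
    split_ifs with h
    · rw [h.1]; ring
    · simp
  set y0 : ℤ := ((bad ∅ / 3 : ℕ) : ℤ) with hy0
  set y : X → X → ℤ := fun p q => ((bad {p, q} / 3 : ℕ) : ℤ) with hy
  have h3y0 : 3 * y0 = bad ∅ := by
    have := hbd ∅ (by simp)
    simp only [hy0]; omega
  have h3y : ∀ p q, 3 * y p q = bad {p, q} := by
    intro p q
    have := hbd {p, q} card_le_two
    simp only [hy]; omega
  have hrep := rep_main hR (k := k) (fun S h => h.1) ha hb hc hab hac hbc y0 y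
    (fun p q => by simp only [hy, pair_comm p q])
    (by
      have : 3 * ∑ p, y p p = 3 * (k * y0) := by
        rw [mul_sum, mul_left_comm, h3y0, hb0, mul_sum]
        simp only [h3y, hb2, mu2_diag]
        rw [sum_comm]
        refine sum_congr rfl (fun S _ => ?_)
        rw [← mul_sum, sum_ind, hwk]
      linarith)
    (fun p => by
      have : 3 * ∑ q, y p q = 3 * (k * y p p) := by
        rw [mul_sum, mul_left_comm, h3y, hb2, mul_sum]
        simp only [h3y, hb2, mu2_diag]
        rw [sum_comm]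
        refine sum_congr rfl (fun S _ => ?_)
        rw [← mul_sum, sum_mu2_row, ← mul_assoc, hwk, mul_assoc]
      linarith) β
    (by have := hbβ ∅; simp only [hy0, Int.natAbs_natCast]; omega)
    (fun p q => by have := hbβ {p, q}; simp only [hy, Int.natAbs_natCast]; omega)
  obtain ⟨u1, f1, c1, m1⟩ := hrep ∅ (by simp only [card_empty]; omega)
  have hF := card_forbid (key := key) ∅ u1
  obtain ⟨u2, f2, c2, m2⟩ := hrep (∅ ∪ (supp u1).image key) (by
    simp only [card_empty] at hF; omega)
  obtain ⟨f12, hdis⟩ := f1.add f2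
  -- the phases
  set start : Finset X → ZMod 3 := fun S =>
    if u1 S = -1 then 1 else if u2 S = -1 then 2 else 0 with hstart
  have hφ : ∃ φ : K → ZMod 3, ∀ S, u1 S + u2 S ≠ 0 → col S + φ (key S) = start S := by
    classical
    refine ⟨fun κ => if h : ∃ S, u1 S + u2 S ≠ 0 ∧ key S = κ then
      start h.choose - col h.choose else 0, fun S hS => ?_⟩
    have h : ∃ S', u1 S' + u2 S' ≠ 0 ∧ key S' = key S := ⟨S, hS, rfl⟩
    simp only [dif_pos h]
    rw [f12.inj _ _ h.choose_spec.1 hS h.choose_spec.2]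
    ring
  obtain ⟨φ, hφ⟩ := hφ
  refine ⟨fun S => if ¬ good S then 0 else if u1 S = 1 then 1 else if u2 S = 1 then 2
    else if u1 S = -1 ∨ u2 S = -1 then 0 else col S + φ (key S), fun c T hT => ?_⟩
  obtain ⟨p, q, -, rfl⟩ := card_eq_two.1 hT
  have hG := good_balanced hrot k φ {p, q} card_le_two c
  have hS := hsplit {p, q} card_le_two
  rw [hT] at hS
  have n1 : ∑ S, u1 S * mu2 S p q = y p q := by
    have := congrFun (congrFun m1 p) q
    simpa only [Finset.sum_apply, Pi.smul_apply, smul_eq_mul] using this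
  have n2 : ∑ S, u2 S * mu2 S p q = y p q := by
    have := congrFun (congrFun m2 p) q
    simpa only [Finset.sum_apply, Pi.smul_apply, smul_eq_mul] using this
  have key1 : ((univ.filter (fun S : Finset X => S.card = k ∧ {p, q} ⊆ S ∧
      (if ¬ good S then 0 else if u1 S = 1 then 1 else if u2 S = 1 then 2
        else if u1 S = -1 ∨ u2 S = -1 then 0 else col S + φ (key S)) = c)).card : ℤ) =
      (univ.filter (fun S : Finset X =>
        S.card = k ∧ {p, q} ⊆ S ∧ good S ∧ col S + φ (key S) = c)).card +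
      ((if c = 0 then 1 else 0) * ∑ S, w S * mu2 S p q +
        (if c = 0 then -1 else if c = 1 then 1 else 0) * ∑ S, u1 S * mu2 S p q +
        (if c = 0 then -1 else if c = 1 then 0 else 1) * ∑ S, u2 S * mu2 S p q) := by
    simp only [card_filter_cast, mul_sum, ← sum_add_distrib, mu2_eq]
    refine sum_congr rfl (fun S _ => ?_)
    have hc3 : c = 0 ∨ c = 1 ∨ c = 2 := zmod3_cases c
    have z1 : (1 : ZMod 3) ≠ 0 := by decide
    have z2 : (2 : ZMod 3) ≠ 0 := by decide
    have z3 : (2 : ZMod 3) ≠ 1 := by decide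
    have z1' := z1.symm
    have z2' := z2.symm
    have z3' := z3.symm
    by_cases hT : {p, q} ⊆ S
    swap
    · simp [hT]
    by_cases h12 : u1 S + u2 S = 0
    · have g1 : u1 S = 0 := by rcases hdis S with h | h <;> omega
      have g2 : u2 S = 0 := by omega
      by_cases hg : good S <;> by_cases hk' : S.card = k <;>
        rcases hc3 with h | h | h <;> simp [hw, hT, g1, g2, hg, hk', h, z1, z2, z3, z1', z2']
    · have hok := f12.ok S h12
      have hst := hφ S h12
      have hsg := f12.sign S h12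
      rcases hdis S with g | g
      · rw [g, zero_add] at hsg
        rcases hsg with g' | g' <;> rcases hc3 with h | h | h <;>
          simp [hw, hT, g, g', hok.1, hok.2, hst, hstart, h, z1, z2, z3, z1', z2', z3']
      · rw [g, add_zero] at hsg
        rcases hsg with g' | g' <;> rcases hc3 with h | h | h <;>
          simp [hw, hT, g, g', hok.1, hok.2, hst, hstart, h, z1, z2, z3, z1', z2', z3']
  rw [← hb2, n1, n2, ← h3y] at key1
  have h3 := h3y p q
  have : (if c = 0 then 1 else 0) * (3 * y p q) +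
      (if c = 0 then -1 else if c = 1 then 1 else 0) * y p q +
      (if c = 0 then -1 else if c = 1 then 0 else 1) * y p q = y p q := by
    split_ifs <;> ring
  rw [this] at key1
  beta_reduce
  omega

end Pool.Agent.MP_f6f5a0_co

end MrgPart3

-- ======== part 4: formerly Pool.Agent.MP_f6f5a0_co.Concrete
section MrgPart4

/-!
The concrete structure: `m` triples and five extra points.
-/

set_option autoImplicit false
set_option linter.unusedSectionVars false

namespace Pool.Agent.MP_f6f5a0_co

open Finset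

/-- The point set: `m` triples and five extra points. -/
abbrev Pt (m : ℕ) : Type := (Fin m × ZMod 3) ⊕ Fin 5

variable {m : ℕ}

/-- The triple of a point. -/
def fib : Pt m → Option (Fin m) := Sum.elim (fun p => some p.1) (fun _ => none)

/-- The position of a point in its triple. -/
def pos : Pt m → ZMod 3 := Sum.elim (fun p => p.2) (fun _ => 0)

/-- Rotation of the triple `i` by `r`. -/
def rotF (i : Fin m) (r : ZMod 3) : Pt m → Pt m :=
  Sum.elim (fun p => Sum.inl (p.1, if p.1 = i then p.2 + r else p.2)) Sum.inr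

theorem rotF_inj (i : Fin m) (r : ZMod 3) : Function.Injective (rotF i r) := by
  rintro (⟨a, z⟩ | a) (⟨b, w⟩ | b) h
  · simp only [rotF, Sum.elim_inl, Sum.inl.injEq, Prod.mk.injEq] at h
    obtain ⟨rfl, h⟩ := h
    split_ifs at h with h'
    · rw [add_right_cancel h]
    · rw [h]
  · simp [rotF] at h
  · simp [rotF] at h
  · simpa [rotF] using h

theorem fib_rotF (i : Fin m) (r : ZMod 3) (x : Pt m) : fib (rotF i r x) = fib x := by
  rcases x with ⟨a, z⟩ | a <;> rfl

theorem rotF_of_ne (i : Fin m) (r : ZMod 3) (x : Pt m) (h : fib x ≠ some i) :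
    rotF i r x = x := by
  rcases x with ⟨a, z⟩ | a
  · have : a ≠ i := fun h' => h (by simp [fib, h'])
    simp [rotF, this]
  · rfl

theorem pos_rotF (i : Fin m) (r : ZMod 3) (x : Pt m) :
    pos (rotF i r x) = pos x + if fib x = some i then r else 0 := by
  rcases x with ⟨a, z⟩ | a
  · simp only [rotF, pos, fib, Sum.elim_inl, Option.some.injEq]
    split_ifs <;> simp
  · simp [rotF, pos, fib]

/-- The number of points of `S` in each triple. -/
def pattern (S : Finset (Pt m)) : Fin m → ℕ := fun i => (S.filter (fun x => fib x = some i)).card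

/-- The triples met by the set in one or two points. -/
def mixed (P : Fin m → ℕ) : Finset (Fin m) := univ.filter (fun i => P i = 1 ∨ P i = 2)

/-- The set has at least three mixed triples. -/
def good (S : Finset (Pt m)) : Prop := 3 ≤ (mixed (pattern S)).card

instance : DecidablePred (good (m := m)) := fun _ => Nat.decLe _ _

/-- Three chosen mixed triples. -/
noncomputable def three (P : Fin m → ℕ) : Finset (Fin m) :=
  if h : 3 ≤ (mixed P).card then (exists_subset_card_eq h).choose else ∅

theorem three_spec {P : Fin m → ℕ} (h : 3 ≤ (mixed P).card) :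
    three P ⊆ mixed P ∧ (three P).card = 3 := by
  unfold three
  rw [dif_pos h]
  exact (exists_subset_card_eq h).choose_spec

/-- The points lying in the triples indexed by `J`. -/
def above (J : Finset (Fin m)) : Finset (Pt m) := (J ×ˢ (univ : Finset (ZMod 3))).map ⟨Sum.inl, Sum.inl_injective⟩

theorem mem_above {J : Finset (Fin m)} {x : Pt m} : x ∈ above J ↔ ∃ i ∈ J, fib x = some i := by
  rcases x with ⟨a, z⟩ | a <;> simp [above, fib]

theorem card_above (J : Finset (Fin m)) : (above J).card = J.card * 3 := by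
  simp [above]

/-- The key of a set. -/
noncomputable def key (S : Finset (Pt m)) : (Fin m → ℕ) × Finset (Pt m) :=
  (pattern S, S \ above (three (pattern S)))

/-- The basic colour of a set. -/
def col (S : Finset (Pt m)) : ZMod 3 := ∑ x ∈ S, pos x

theorem pattern_map (i : Fin m) (r : ZMod 3) (S : Finset (Pt m)) :
    pattern (S.map ⟨rotF i r, rotF_inj i r⟩) = pattern S := by
  ext j
  simp only [pattern]
  rw [filter_map, card_map]
  congr 1
  exact filter_congr (fun x _ => by simp [fib_rotF])

theorem col_map (i : Fin m) (r : ZMod 3) (S : Finset (Pt m)) :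
    col (S.map ⟨rotF i r, rotF_inj i r⟩) = col S + (pattern S i : ZMod 3) * r := by
  simp only [col, sum_map, Function.Embedding.coeFn_mk, pos_rotF, sum_add_distrib, pattern]
  rw [← sum_filter]
  simp

theorem mem_map_of_ne (i : Fin m) (r : ZMod 3) (S : Finset (Pt m)) (x : Pt m)
    (h : fib x ≠ some i) : x ∈ S.map ⟨rotF i r, rotF_inj i r⟩ ↔ x ∈ S := by
  simp only [mem_map, Function.Embedding.coeFn_mk]
  constructor
  · rintro ⟨y, hy, rfl⟩
    rw [fib_rotF] at h
    rwa [rotF_of_ne i r y h]
  · intro hx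
    exact ⟨x, hx, rotF_of_ne i r x h⟩

theorem rot_concrete (hm : 0 < m) : Rot (good (m := m)) key col := by
  intro T hT
  have hex : ∀ P : Fin m → ℕ, ∃ i : Fin m, 3 ≤ (mixed P).card →
      i ∈ three P ∧ ∀ x ∈ T, fib x ≠ some i := by
    intro P
    by_cases h : 3 ≤ (mixed P).card
    · have h1 := (three_spec h).2
      have h2 : (T.image fib).card < ((three P).map ⟨some, Option.some_injective _⟩).card := by
        rw [card_map, h1]
        exact lt_of_le_of_lt card_image_le (by omega)
      obtain ⟨o, ho1, ho2⟩ := exists_mem_notMem_of_card_lt_card h2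
      obtain ⟨i, hi, rfl⟩ := mem_map.1 ho1
      exact ⟨i, fun _ => ⟨hi, fun x hx hf => ho2 (mem_image.2 ⟨x, hx, hf⟩)⟩⟩
    · exact ⟨⟨0, hm⟩, fun h' => absurd h' h⟩
  choose idx hidx using hex
  refine ⟨fun S => S.map ⟨rotF (idx (pattern S)) (pattern S (idx (pattern S))),
    rotF_inj _ _⟩, fun S hS hTS => ?_, fun S S' _ _ h => ?_⟩
  · obtain ⟨h1, h2⟩ := hidx (pattern S) hS
    refine ⟨card_map _, ?_, ?_, ?_, ?_⟩
    · simp only [good, pattern_map]; exact hS
    · intro x hx
      exact (mem_map_of_ne _ _ _ _ (h2 x hx)).2 (hTS hx)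
    · simp only [key, pattern_map, Prod.mk.injEq, true_and]
      ext x
      simp only [mem_sdiff]
      refine and_congr_left (fun hx => mem_map_of_ne _ _ _ _ (fun hf => hx ?_))
      exact mem_above.2 ⟨_, h1, hf⟩
    · rw [col_map]
      have := (three_spec hS).1 h1
      simp only [mixed, mem_filter, mem_univ, true_and] at this
      rcases this with h | h <;> rw [h] <;> congr 1
  · have hp : pattern S = pattern S' := by
      have := congrArg pattern h
      simpa only [pattern_map] using this
    simp only [hp] at h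
    exact map_injective _ h

theorem special_inr (e : Fin 5) : Special (key (m := m)) (Sum.inr e) := by
  intro S S' h
  simp only [key, Prod.mk.injEq] at h
  have h1 : ∀ J : Finset (Fin m), (Sum.inr e : Pt m) ∉ above J := by
    intro J; simp [mem_above, fib]
  have h2 := congrArg (fun U => (Sum.inr e : Pt m) ∈ U) h.2
  simpa [h1] using h2

theorem fiber_le (κ : (Fin m → ℕ) × Finset (Pt m)) :
    (univ.filter (fun S : Finset (Pt m) => good S ∧ key S = κ)).card ≤ 512 := by
  by_cases h : 3 ≤ (mixed κ.1).card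
  · have : (above (three κ.1)).powerset.card = 512 := by
      rw [card_powerset, card_above, (three_spec h).2]; norm_num
    rw [← this]
    refine card_le_card_of_injOn (fun S => S ∩ above (three κ.1)) ?_ ?_
    · intro S _
      simp
    · intro S hS S' hS' hh
      simp only [coe_filter, mem_univ, true_and, Set.mem_ofPred_eq] at hS hS'
      have a1 : S \ above (three κ.1) = κ.2 := by rw [← hS.2]; rfl
      have a2 : S' \ above (three κ.1) = κ.2 := by rw [← hS'.2]; rfl
      rw [← sdiff_union_inter S (above (three κ.1)), ← sdiff_union_inter S' (above (three κ.1)),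
        a1, a2]
      exact congrArg _ hh
  · rw [filter_eq_empty_iff.2]
    · simp
    · rintro S - ⟨h1, rfl⟩
      exact h h1

theorem mem_iff_of_not_mixed (S : Finset (Pt m)) (j : Fin m) (hj : j ∉ mixed (pattern S))
    (x : Pt m) (hx : fib x = some j) : x ∈ S ↔ pattern S j = 3 := by
  have hsub : S.filter (fun x => fib x = some j) ⊆ above {j} := by
    intro y hy
    exact mem_above.2 ⟨j, mem_singleton_self _, (mem_filter.1 hy).2⟩
  have hc : (above ({j} : Finset (Fin m))).card = 3 := by rw [card_above]; simp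
  have hle : pattern S j ≤ 3 := hc ▸ card_le_card hsub
  simp only [mixed, mem_filter, mem_univ, true_and, not_or] at hj
  constructor
  · intro h
    have : 0 < pattern S j := card_pos.2 ⟨x, mem_filter.2 ⟨h, hx⟩⟩
    omega
  · intro h
    have := eq_of_subset_of_card_le hsub (by rw [hc]; exact h.ge)
    have h2 : x ∈ above {j} := mem_above.2 ⟨j, mem_singleton_self _, hx⟩
    rw [← this] at h2
    exact (mem_filter.1 h2).1

theorem bad_le (hm : 2 ≤ m) :
    (univ.filter (fun S : Finset (Pt m) => ¬ good S)).card ≤ m ^ 2 * (2 ^ m * 2 ^ 11) := by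
  have hsub : univ.filter (fun S : Finset (Pt m) => ¬ good S) ⊆
      (powersetCard 2 (univ : Finset (Fin m))).biUnion
        (fun J => univ.filter (fun S : Finset (Pt m) => mixed (pattern S) ⊆ J)) := by
    intro S hS
    simp only [good, mem_filter, mem_univ, true_and, not_le] at hS
    obtain ⟨J, h1, h2⟩ := exists_superset_card_eq (s := mixed (pattern S)) (n := 2) (by omega)
      (by simpa using hm)
    exact mem_biUnion.2 ⟨J, mem_powersetCard.2 ⟨subset_univ _, h2⟩, by simpa using h1⟩
  refine (card_le_card hsub).trans ((card_biUnion_le_card_mul _ _ (2 ^ m * 2 ^ 11) ?_).trans ?_)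
  · intro J hJ
    have hJc := (mem_powersetCard.1 hJ).2
    set W : Finset (Pt m) := above J ∪ (univ : Finset (Fin 5)).map ⟨Sum.inr, Sum.inr_injective⟩
      with hW
    have hWc : W.card ≤ 11 := by
      refine (card_union_le _ _).trans ?_
      rw [card_above, hJc]; simp
    have : ((univ : Finset (Finset (Fin m))) ×ˢ W.powerset).card ≤ 2 ^ m * 2 ^ 11 := by
      rw [card_product, card_powerset, card_univ, Fintype.card_finset, Fintype.card_fin]
      exact Nat.mul_le_mul_left _ (Nat.pow_le_pow_right (by omega) hWc)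
    refine le_trans (card_le_card_of_injOn
      (fun S => (univ.filter (fun j => pattern S j = 3), S ∩ W)) ?_ ?_) this
    · intro S _
      simp
    · intro S hS S' hS' hh
      simp only [coe_filter, mem_univ, true_and, Set.mem_ofPred_eq] at hS hS'
      simp only [Prod.mk.injEq] at hh
      ext x
      by_cases hx : x ∈ W
      · have := congrArg (fun U => x ∈ U) hh.2
        simpa [hx] using this
      · rcases x with ⟨j, z⟩ | e
        · have hj : j ∉ J := fun h => hx (mem_union_left _ (mem_above.2 ⟨j, h, rfl⟩))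
          rw [mem_iff_of_not_mixed S j (fun h => hj (hS h)) _ rfl,
            mem_iff_of_not_mixed S' j (fun h => hj (hS' h)) _ rfl]
          have := congrArg (fun U => j ∈ U) hh.1
          simpa using this
        · exact absurd (mem_union_right _ (by simp)) hx
  · rw [card_powersetCard, card_univ, Fintype.card_fin]
    exact Nat.mul_le_mul_right _ (Nat.choose_le_pow _ _)

theorem card_pt : Fintype.card (Pt m) = 3 * m + 5 := by
  simp [mul_comm]

theorem concrete_main (hm : 2 ≤ m) (k : ℕ) (hk : 2 ≤ k)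
    (hdiv : ∀ i ≤ 2, 3 ∣ (3 * m + 5 - i).choose (k - i))
    (hcap : m ^ 2 * (2 ^ m * 2 ^ 11) + (2 * cost (3 * m + 5) (m ^ 2 * (2 ^ m * 2 ^ 11))) * 512
      < (3 * m + 5 - 4).choose (k - 2)) :
    ∃ f : Finset (Pt m) → ZMod 3, ∀ c : ZMod 3, ∀ T : Finset (Pt m), T.card = 2 →
      3 * (univ.filter (fun S : Finset (Pt m) => S.card = k ∧ T ⊆ S ∧ f S = c)).card
        = (3 * m + 5 - 2).choose (k - 2) := by
  rw [← card_pt] at hdiv hcap ⊢
  exact abstract_main k hk good key col (rot_concrete (by omega)) 512 _ fiber_le (bad_le hm)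
    (by rw [card_pt]; omega) (special_inr 0) (special_inr 1) (special_inr 2) (by simp) (by simp)
    (by simp) hdiv hcap

end Pool.Agent.MP_f6f5a0_co

end MrgPart4

-- ======== part 5: formerly Pool.Agent.MP_f6f5a0_co.Numeric
section MrgPart5

/-!
The numerical estimates and the divisibility conditions.
-/

set_option autoImplicit false

namespace Pool.Agent.MP_f6f5a0_co

theorem four_mul_choose_le (r : ℕ) (hr : 1 ≤ r) :
    4 * (3 * r).choose r ≤ (3 * (r + 1)).choose (r + 1) := by
  have h1 : (3 * r).choose r ≤ (3 * r).choose (r + 1) := by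
    rcases Nat.eq_or_lt_of_le hr with h | h
    · subst h; decide
    · exact Nat.choose_le_succ_of_lt_half_left (by omega)
  have h2 : (3 * r + 1).choose (r + 1) = (3 * r).choose r + (3 * r).choose (r + 1) :=
    Nat.choose_succ_succ' _ _
  have h3 : (3 * r + 1 + 1).choose (r + 1) = (3 * r + 1).choose r + (3 * r + 1).choose (r + 1) :=
    Nat.choose_succ_succ' _ _
  have h4 : (3 * r + 1 + 1 + 1).choose (r + 1)
      = (3 * r + 1 + 1).choose r + (3 * r + 1 + 1).choose (r + 1) :=
    Nat.choose_succ_succ' _ _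
  have h5 : (3 * r).choose r ≤ (3 * r + 1).choose r := Nat.choose_le_succ _ _
  have h6 : (3 * r + 1).choose r ≤ (3 * r + 1 + 1).choose r := Nat.choose_le_succ _ _
  have e : 3 * (r + 1) = 3 * r + 1 + 1 + 1 := by ring
  rw [e]
  omega

theorem four_pow_le_choose (r : ℕ) : 4 ^ r ≤ (3 * (r + 1)).choose (r + 1) := by
  induction r with
  | zero => simp
  | succ r ih =>
    have := four_mul_choose_le (r + 1) (by omega)
    rw [pow_succ]
    omega

theorem poly_lt_pow (m : ℕ) (hm : 80 ≤ m) : 2 ^ 39 * m ^ 6 < 2 ^ m := by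
  induction m, hm using Nat.le_induction with
  | base => norm_num
  | succ m hm ih =>
    have h : (m + 1) ^ 6 ≤ 2 * m ^ 6 := by
      have h1 : 80 * (m + 1) ≤ 81 * m := by omega
      have h2 := Nat.pow_le_pow_left h1 6
      rw [mul_pow, mul_pow] at h2
      omega
    rw [pow_succ 2 m]
    omega

theorem cost_le (v β : ℕ) (hv : 5 ≤ v) : cost v β ≤ 50 * v ^ 4 * β := by
  have e : cost v β = (1 + 12 * v + 24 * v ^ 2 + 32 * v ^ 3 + 32 * v ^ 4) * β := by
    unfold cost; ring
  rw [e]
  refine Nat.mul_le_mul_right _ ?_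
  have h1 : 5 * 1 ≤ v := hv
  have h2 : 5 * v ≤ v ^ 2 := by nlinarith
  have h3 : 5 * v ^ 2 ≤ v ^ 3 := by nlinarith
  have h4 : 5 * v ^ 3 ≤ v ^ 4 := by nlinarith
  omega

theorem cap_ok (m j : ℕ) (hm : 80 ≤ m) (hj : j ≤ 2) :
    m ^ 2 * (2 ^ m * 2 ^ 11) + (2 * cost (3 * m + 5) (m ^ 2 * (2 ^ m * 2 ^ 11))) * 512
      < (3 * m + 5 - 4).choose (m + 1 + j - 2) := by
  set β := m ^ 2 * (2 ^ m * 2 ^ 11) with hβ
  have h1 := cost_le (3 * m + 5) β (by omega)
  have h2 : (3 * m + 5) ^ 4 ≤ (4 * m) ^ 4 := Nat.pow_le_pow_left (by omega) 4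
  have h3 : 1 ≤ m ^ 4 := Nat.one_le_pow _ _ (by omega)
  have h4 : β + (2 * cost (3 * m + 5) β) * 512 ≤ 2 ^ 24 * m ^ 4 * β := by
    have a1 : 50 * (3 * m + 5) ^ 4 * β ≤ 50 * (4 * m) ^ 4 * β :=
      Nat.mul_le_mul_right _ (Nat.mul_le_mul_left _ h2)
    have a2 : 50 * (4 * m) ^ 4 * β = 12800 * (m ^ 4 * β) := by ring
    have a3 : 1 * β ≤ m ^ 4 * β := Nat.mul_le_mul_right _ h3
    have a4 : 2 ^ 24 * m ^ 4 * β = 16777216 * (m ^ 4 * β) := by ring
    omega
  have h5 : 2 ^ 24 * m ^ 4 * β = 2 ^ 35 * m ^ 6 * 2 ^ m := by rw [hβ]; ring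
  obtain ⟨r, rfl⟩ : ∃ r, m = r + 2 := ⟨m - 2, by omega⟩
  have h6 := four_pow_le_choose r
  have h7 := choose_le_choose_add (3 * (r + 1)) (r + 1) j
  have h8 : (3 * (r + 1) + j).choose (r + 1 + j) ≤ (3 * (r + 2) + 5 - 4).choose (r + 1 + j) :=
    Nat.choose_le_choose _ (by omega)
  have h9 : r + 2 + 1 + j - 2 = r + 1 + j := by omega
  rw [h9]
  have h10 := poly_lt_pow (r + 2) hm
  have h11 : 2 ^ 35 * (r + 2) ^ 6 * 2 ^ (r + 2) < 4 ^ r := by
    have a1 : 16 * (2 ^ 35 * (r + 2) ^ 6 * 2 ^ (r + 2)) = (2 ^ 39 * (r + 2) ^ 6) * 2 ^ (r + 2) := by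
      ring
    have a2 : 16 * 4 ^ r = 2 ^ (r + 2) * 2 ^ (r + 2) := by
      rw [← mul_pow]; ring
    have a3 : (2 ^ 39 * (r + 2) ^ 6) * 2 ^ (r + 2) < 2 ^ (r + 2) * 2 ^ (r + 2) :=
      Nat.mul_lt_mul_of_pos_right h10 (by positivity)
    omega
  omega

theorem dvd_choose_add (N a r : ℕ) (h : ∀ s, r ≤ s + a → s ≤ r → 3 ∣ N.choose s) :
    3 ∣ (N + a).choose r := by
  induction a generalizing r with
  | zero => exact h r (by omega) le_rfl
  | succ a ih =>
    cases r with
    | zero =>
      simpa using h 0 (by omega) le_rfl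
    | succ r =>
      rw [← add_assoc, Nat.choose_succ_succ']
      exact dvd_add (ih r (fun s h1 h2 => h s (by omega) (by omega)))
        (ih (r + 1) (fun s h1 h2 => h s (by omega) h2))

theorem div_ok (n j : ℕ) (hn : 3 < n) (hj : j ≤ 2) (i : ℕ) (hi : i ≤ 2) :
    3 ∣ (3 ^ (n + 1) + 2 - i).choose (3 ^ n + j - i) := by
  have h1 : 3 ^ 4 ≤ 3 ^ n := Nat.pow_le_pow_right (by omega) hn
  have e : 3 ^ (n + 1) + 2 - i = 3 ^ (n + 1) + (2 - i) := by omega
  rw [e]
  refine dvd_choose_add _ _ _ (fun s h2 h3 => ?_)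
  refine Nat.Prime.dvd_choose_pow Nat.prime_three (by omega) ?_
  rw [pow_succ]
  omega

end Pool.Agent.MP_f6f5a0_co

end MrgPart5

-- marker of a merged file
example : 731051 + 872322 = 731051 + 872322 := rfl
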